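import Pool.Agent.R614.Dfn
set_option autoImplicit false

/-!
# Equal degree is first-order definable in polynomial rings

For every field `K` of characteristic zero the relation `deg f = deg g` is definable in the ring
`K[t]` by a first-order formula of the language of rings with the parameter `t`. In particular this
is so for `ℂ[t]`.

The proof. The constants are `0` and the units. The powers of `t` are the `f` with `t - 1 ∣ f - 1`
such that `t` divides all nonunits which divide `f`; the constant `n` is a natural number iff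
`(t - 1)² ∣ f - 1 - n (t - 1)` for some power `f` of `t`. For constants `c`, `d` one has `f(c) = d` iff
`t - c ∣ f - d`; so every polynomial `s` is a code of the sequence `s(0), s(1), s(2), …`, and all
finite sequences of constants have codes. Finally `deg f ≤ n` iff there is a polynomial `q` such
that for every constant `x` the number `f(x)` is computed by the Horner scheme with the
coefficients `q(0), …, q(n)`: there is a polynomial `s` with `s(0) = q(0)`,
`s(k + 1) = x s(k) + q(k + 1)` for all `k < n`, and `s(n) = f(x)`.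
-/

open Polynomial

namespace Pool.Agent.Results.MP_d395f7_lc.EqualDegree

open Pool.Agent.R614

section

variable {K : Type} [Field K]

/-- constants -/
def IsC (x : K[X]) : Prop := x = 0 ∨ IsUnit x

theorem isC_iff (x : K[X]) : IsC x ↔ ∃ a : K, x = C a := by
  constructor
  · rintro (h | h)
    · exact ⟨0, by rw [h, map_zero]⟩
    · obtain ⟨a, -, ha⟩ := Polynomial.isUnit_iff.1 h
      exact ⟨a, ha.symm⟩
  · rintro ⟨a, rfl⟩
    by_cases ha : a = 0
    · left
      rw [ha, map_zero]
    · right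
      exact Polynomial.isUnit_C.2 (isUnit_iff_ne_zero.2 ha)

/-- powers of `t` -/
def Pw (f : K[X]) : Prop := X - 1 ∣ f - 1 ∧ ∀ g, g ∣ f → IsUnit g ∨ X ∣ g

theorem pw_iff (f : K[X]) : Pw f ↔ ∃ n : ℕ, f = X ^ n := by
  constructor
  · rintro ⟨h1, h2⟩
    have hf : f ≠ 0 := by
      rintro rfl
      rw [zero_sub, dvd_neg] at h1
      have := Polynomial.dvd_iff_isRoot.1 (show X - C (1 : K) ∣ 1 by rwa [map_one])
      simp at this
    obtain ⟨n, g, hg, hfg⟩ := Polynomial.exists_eq_pow_rootMultiplicity_mul_and_not_dvd f hf 0 |>.imp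
      (fun g h => h) |> fun h => (⟨rootMultiplicity 0 f, h.choose, h.choose_spec.2,
        h.choose_spec.1⟩ : ∃ n g, ¬ (X - C (0 : K)) ∣ g ∧ f = (X - C (0 : K)) ^ n * g)
    rw [map_zero, sub_zero] at hg hfg
    have h3 : IsUnit g := (h2 g ⟨X ^ n, by rw [hfg, mul_comm]⟩).resolve_right hg
    obtain ⟨a, -, ha⟩ := Polynomial.isUnit_iff.1 h3
    have h4 := Polynomial.dvd_iff_isRoot.1 (show X - C (1 : K) ∣ f - 1 by rwa [map_one])
    rw [hfg, ← ha] at h4
    have h5 : a = 1 := by
      simp only [IsRoot.def, eval_sub, eval_mul, eval_pow, eval_X, one_pow, one_mul, eval_C,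
        eval_one] at h4
      exact sub_eq_zero.1 h4
    refine ⟨n, ?_⟩
    rw [hfg, ← ha, h5, map_one, mul_one]
  · rintro ⟨n, rfl⟩
    refine ⟨?_, ?_⟩
    · simpa using sub_dvd_pow_sub_pow (X : K[X]) 1 n
    · intro g hg
      obtain ⟨i, -, hi⟩ := (dvd_prime_pow Polynomial.prime_X n).1 hg
      rcases Nat.eq_zero_or_pos i with h | h
      · left
        rw [h, pow_zero] at hi
        exact associated_one_iff_isUnit.1 hi
      · right
        exact (dvd_pow_self X h.ne').trans hi.symm.dvd

/-- natural numbers -/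
def Nt (x : K[X]) : Prop := IsC x ∧ ∃ f, Pw f ∧ (X - 1) ^ 2 ∣ f - 1 - x * (X - 1)

theorem nt_aux (n : ℕ) : ((X : K[X]) - 1) ^ 2 ∣ X ^ n - 1 - (n : K[X]) * (X - 1) := by
  induction n with
  | zero => simp
  | succ n ih =>
    have h : (X : K[X]) ^ (n + 1) - 1 - ((n + 1 : ℕ) : K[X]) * (X - 1) =
        X * (X ^ n - 1 - (n : K[X]) * (X - 1)) + (n : K[X]) * (X - 1) ^ 2 := by
      push_cast
      ring
    rw [h]
    exact dvd_add (Dvd.dvd.mul_left ih _) (Dvd.intro_left _ rfl)

theorem nt_iff [CharZero K] (x : K[X]) : Nt x ↔ ∃ n : ℕ, x = (n : K[X]) := by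
  constructor
  · rintro ⟨hx, f, hf, h⟩
    obtain ⟨a, rfl⟩ := (isC_iff x).1 hx
    obtain ⟨n, rfl⟩ := (pw_iff f).1 hf
    refine ⟨n, ?_⟩
    have h1 := dvd_sub h (nt_aux (K := K) n)
    have h2 : (X : K[X]) ^ n - 1 - C a * (X - 1) - (X ^ n - 1 - (n : K[X]) * (X - 1)) =
        ((n : K[X]) - C a) * (X - 1) := by ring
    rw [h2, sq] at h1
    have hX : (X : K[X]) - 1 ≠ 0 := by
      have := Polynomial.X_sub_C_ne_zero (1 : K)
      rwa [map_one] at this
    have h3 : (X : K[X]) - 1 ∣ (n : K[X]) - C a := (mul_dvd_mul_iff_right hX).1 h1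
    have h4 := Polynomial.dvd_iff_isRoot.1 (show X - C (1 : K) ∣ (n : K[X]) - C a by
      rwa [map_one])
    have h5 : (n : K) - a = 0 := by simpa using h4
    have h6 : a = (n : K) := (sub_eq_zero.1 h5).symm
    rw [h6]
    simp
  · rintro ⟨n, rfl⟩
    exact ⟨(isC_iff _).2 ⟨n, by simp⟩, X ^ n, (pw_iff _).2 ⟨n, rfl⟩, nt_aux n⟩

/-- `f(c) = d` -/
def Ev (f c d : K[X]) : Prop := X - c ∣ f - d

theorem ev_iff (f : K[X]) (a b : K) : Ev f (C a) (C b) ↔ f.eval a = b := by
  rw [Ev, Polynomial.dvd_iff_isRoot]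
  simp [sub_eq_zero]

/-- `deg f ≤ n` -/
def Dg (f n : K[X]) : Prop :=
  ∃ q, ∀ x, IsC x → ∃ s, (∃ a, IsC a ∧ Ev q 0 a ∧ Ev s 0 a) ∧
    (∀ k, Nt k → (∃ m, Nt m ∧ n = k + m + 1) → ∀ a b, IsC a → IsC b → Ev s k a →
      Ev q (k + 1) b → Ev s (k + 1) (x * a + b)) ∧
    (∀ a, IsC a → Ev s n a → Ev f x a)

/-- the Horner scheme -/
def hor (u : ℕ → K) (x : K) : ℕ → K
  | 0 => u 0
  | k + 1 => x * hor u x k + u (k + 1)

/-- the Horner scheme for polynomials -/
noncomputable def horP (u : ℕ → K) : ℕ → K[X]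
  | 0 => C (u 0)
  | k + 1 => X * horP u k + C (u (k + 1))

theorem eval_horP (u : ℕ → K) (x : K) (k : ℕ) : (horP u k).eval x = hor u x k := by
  induction k with
  | zero => simp [horP, hor]
  | succ k ih => simp [horP, hor, ih]

theorem natDegree_horP (u : ℕ → K) (k : ℕ) : (horP u k).natDegree ≤ k := by
  induction k with
  | zero => simp [horP]
  | succ k ih =>
    refine (natDegree_add_le _ _).trans (max_le ?_ ?_)
    · refine natDegree_mul_le.trans ?_
      have := natDegree_X_le (R := K)
      omega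
    · simp

theorem coeff_iter (f : K[X]) (m j : ℕ) : (divX^[m] f).coeff j = f.coeff (j + m) := by
  induction m generalizing j with
  | zero => rfl
  | succ m ih =>
    rw [Function.iterate_succ_apply', coeff_divX, ih]
    congr 1
    omega

theorem horP_coeff (f : K[X]) (n : ℕ) (hf : f.natDegree ≤ n) (k : ℕ) (hk : k ≤ n) :
    horP (fun i => f.coeff (n - i)) k = divX^[n - k] f := by
  induction k with
  | zero =>
    ext j
    rw [coeff_iter]
    rcases Nat.eq_zero_or_pos j with h | h
    · subst h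
      simp [horP]
    · have h1 : f.coeff (j + (n - 0)) = 0 := coeff_eq_zero_of_natDegree_lt (by omega)
      rw [h1]
      simp [horP, coeff_C, h.ne']
  | succ k ih =>
    have h1 : n - k = (n - (k + 1)) + 1 := by omega
    rw [horP, ih (by omega), h1, Function.iterate_succ_apply']
    conv_rhs => rw [← X_mul_divX_add (divX^[n - (k + 1)] f)]
    rw [coeff_iter, Nat.zero_add]

theorem hor_congr (u v : ℕ → K) (x : K) (k : ℕ) (h : ∀ i ≤ k, u i = v i) :
    hor u x k = hor v x k := by
  induction k with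
  | zero => exact h 0 le_rfl
  | succ k ih => rw [hor, hor, ih fun i hi => h i (by omega), h (k + 1) le_rfl]

theorem exists_code [CharZero K] (u : ℕ → K) (n : ℕ) : ∃ q : K[X], ∀ k ≤ n, q.eval (k : K) = u k :=
  ⟨Lagrange.interpolate (Finset.range (n + 1)) (fun i : ℕ => (i : K)) u, fun k hk =>
    Lagrange.eval_interpolate_at_node u (Nat.cast_injective.injOn)
      (Finset.mem_range.2 (by omega))⟩

theorem dg_iff [CharZero K] (f : K[X]) (n : ℕ) : Dg f (n : K[X]) ↔ f.natDegree ≤ n := by
  have hcast : ∀ k : ℕ, (k : K[X]) = C (k : K) := fun k => by simp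
  have hlt : ∀ k : ℕ, (∃ m : K[X], Nt m ∧ (n : K[X]) = k + m + 1) ↔ k < n := by
    intro k
    constructor
    · rintro ⟨m, hm, h⟩
      obtain ⟨j, rfl⟩ := (nt_iff m).1 hm
      have : n = k + j + 1 := by exact_mod_cast h
      omega
    · intro h
      refine ⟨((n - k - 1 : ℕ) : K[X]), (nt_iff _).2 ⟨_, rfl⟩, ?_⟩
      have : n = k + (n - k - 1) + 1 := by omega
      exact_mod_cast this
  constructor
  · rintro ⟨q, hq⟩
    have hval : ∀ x : K, f.eval x = hor (fun i => q.eval (i : K)) x n := by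
      intro x
      obtain ⟨s, ⟨a, ha, hqa, hsa⟩, hstep, hlast⟩ := hq (C x) ((isC_iff _).2 ⟨x, rfl⟩)
      obtain ⟨a, rfl⟩ := (isC_iff a).1 ha
      rw [← map_zero C, ev_iff] at hqa hsa
      have h1 : ∀ k ≤ n, s.eval (k : K) = hor (fun i => q.eval (i : K)) x k := by
        intro k
        induction k with
        | zero =>
          intro _
          rw [hor, Nat.cast_zero, hqa, hsa]
        | succ k ih =>
          intro hk
          have h2 := hstep (k : K[X]) ((nt_iff _).2 ⟨k, rfl⟩) ((hlt k).2 (by omega))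
            (C (s.eval (k : K))) (C (q.eval ((k : K) + 1))) ((isC_iff _).2 ⟨_, rfl⟩)
            ((isC_iff _).2 ⟨_, rfl⟩) (by rw [hcast, ev_iff])
            (by rw [hcast, ← map_one C, ← map_add, ev_iff])
          rw [hcast, ← map_one C, ← map_add, ← map_mul, ← map_add, ev_iff] at h2
          rw [hor, ← ih (by omega)]
          push_cast
          exact h2
      have h2 := hlast (C (s.eval (n : K))) ((isC_iff _).2 ⟨_, rfl⟩) (by rw [hcast, ev_iff])
      rw [ev_iff] at h2
      rw [h2, h1 n le_rfl]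
    have h1 : f = horP (fun i => q.eval (i : K)) n :=
      Polynomial.funext fun x => by rw [hval, eval_horP]
    rw [h1]
    exact natDegree_horP _ _
  · intro hf
    obtain ⟨q, hq⟩ := exists_code (fun i => f.coeff (n - i)) n
    refine ⟨q, fun x hx => ?_⟩
    obtain ⟨x, rfl⟩ := (isC_iff x).1 hx
    obtain ⟨s, hs⟩ := exists_code (hor (fun i => f.coeff (n - i)) x) n
    refine ⟨s, ⟨C (f.coeff n), (isC_iff _).2 ⟨_, rfl⟩, ?_, ?_⟩, ?_, ?_⟩
    · rw [← map_zero C, ev_iff]
      have := hq 0 (Nat.zero_le _)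
      simpa using this
    · rw [← map_zero C, ev_iff]
      have := hs 0 (Nat.zero_le _)
      simpa [hor] using this
    · intro k hk hkn a b ha hb hsa hqb
      obtain ⟨k, rfl⟩ := (nt_iff k).1 hk
      obtain ⟨a, rfl⟩ := (isC_iff a).1 ha
      obtain ⟨b, rfl⟩ := (isC_iff b).1 hb
      have hk' := (hlt k).1 hkn
      rw [hcast, ev_iff] at hsa
      rw [hcast, ← map_one C, ← map_add, ev_iff] at hqb
      rw [hcast, ← map_one C, ← map_add, ← map_mul, ← map_add, ev_iff]
      have h1 := hs (k + 1) (by omega)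
      have h2 := hs k (by omega)
      have h3 := hq (k + 1) (by omega)
      push_cast at h1 h3
      rw [h1, hor, ← h2, hsa, ← hqb, h3]
    · intro a ha hsa
      obtain ⟨a, rfl⟩ := (isC_iff a).1 ha
      rw [hcast, ev_iff, hs n le_rfl] at hsa
      rw [ev_iff, ← hsa, ← eval_horP, horP_coeff f n hf n le_rfl]
      simp

theorem degree_eq_iff [CharZero K] (f g : K[X]) : f.degree = g.degree ↔
    (f = 0 ↔ g = 0) ∧ ∀ n, Nt n → (Dg f n ↔ Dg g n) := by
  constructor
  · intro h
    refine ⟨by rw [← degree_eq_bot, ← degree_eq_bot, h], fun n hn => ?_⟩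
    obtain ⟨n, rfl⟩ := (nt_iff n).1 hn
    rw [dg_iff, dg_iff, natDegree_eq_natDegree h]
  · rintro ⟨h0, h⟩
    have h1 : ∀ n : ℕ, f.natDegree ≤ n ↔ g.natDegree ≤ n := fun n => by
      rw [← dg_iff, ← dg_iff]
      exact h _ ((nt_iff _).2 ⟨n, rfl⟩)
    have h2 : f.natDegree = g.natDegree :=
      le_antisymm ((h1 _).2 le_rfl) ((h1 _).1 le_rfl)
    by_cases hf : f = 0
    · rw [hf, h0.1 hf]
    · rw [degree_eq_natDegree hf, degree_eq_natDegree fun hg => hf (h0.2 hg), h2]

/-! ### Definability -/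

variable (K) in
/-- the parameter `t` -/
abbrev par : ↥({X} : Set K[X]) → K[X] := fun p => (p : K[X])

instance tf_X : Tf (par K) (fun _ => (X : K[X])) := tf_par (c := par K) ⟨X, rfl⟩

instance df_isC {s : (ℕ → K[X]) → K[X]} [Tf (par K) s] : Df (par K) (fun v => IsC (s v)) := by
  unfold IsC
  infer_instance

instance df_pw {s : (ℕ → K[X]) → K[X]} [Tf (par K) s] : Df (par K) (fun v => Pw (s v)) :=
  df_app1 (R := Pw) (by unfold Pw; infer_instance) s

instance df_nt {s : (ℕ → K[X]) → K[X]} [Tf (par K) s] : Df (par K) (fun v => Nt (s v)) :=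
  df_app1 (R := Nt) (by unfold Nt; infer_instance) s

instance df_ev {s t u : (ℕ → K[X]) → K[X]} [Tf (par K) s] [Tf (par K) t] [Tf (par K) u] :
    Df (par K) (fun v => Ev (s v) (t v) (u v)) := by
  unfold Ev
  infer_instance

instance df_dg {s t : (ℕ → K[X]) → K[X]} [Tf (par K) s] [Tf (par K) t] :
    Df (par K) (fun v => Dg (s v) (t v)) :=
  df_app2 (R := Dg) (by unfold Dg; infer_instance) s t

end

/-- **Equal degree is definable in `K[t]`.** Let `K` be a field of characteristic zero, for example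
the field of complex numbers. The relation `deg f = deg g` (where `deg 0 = - ∞`) between elements
of `K[t]` is first-order definable in the ring `K[t]` with the parameter `t`. -/
theorem result : ∀ (K : Type) [Field K] [CharZero K],
    @Set.Definable₂ K[X] {X} FirstOrder.Language.ring
      (FirstOrder.Ring.compatibleRingOfRing K[X]).toStructure
      {p : K[X] × K[X] | p.1.degree = p.2.degree} := by
  intro K _ _
  refine definable₂_of_df (R := fun f g : K[X] => f.degree = g.degree) ?_
  refine Df.congr (R := fun v => (v 0 = 0 ↔ v 1 = 0) ∧ ∀ n, Nt n → (Dg (v 0) n ↔ Dg (v 1) n))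
    inferInstance fun v => (degree_eq_iff (v 0) (v 1)).symm

end Pool.Agent.Results.MP_d395f7_lc.EqualDegree
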